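import Pool.Agent.H8.EDA.Targets
import Pool.Agent.H2.ED.Gam1

/-!
# Row FVDF: the degree of an iterate on a totally invariant subset
-/

set_option autoImplicit false

open MvPolynomial
open Pool.Agent.H12.ZD (pmap)
open Pool.Agent.H18.HIT Pool.Agent.H18.HX Pool.Agent.H18.VZ
open Pool.Agent.H8.TD (lc dg)
open Pool.Agent.H2.ED
open Pool.Agent.H18.EDB (dgm)
open Pool.Agent.H8.EDA

namespace Pool.Agent.H73.EDA

section forms

variable {k : Type} [Field k]

/-- the linear form with coefficients `s` -/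
noncomputable def lf {L : ℕ} (s : Fin L → k) : Po L k := ∑ i, C (s i) * X i

theorem lf_hom {L : ℕ} (s : Fin L → k) : (lf s).IsHomogeneous 1 := by
  apply IsHomogeneous.sum
  intro i _
  have h1 := (isHomogeneous_C (Fin L) (s i)).mul (isHomogeneous_X k i)
  rwa [zero_add] at h1

theorem aeval_lf {L : ℕ} {K : Type} [Field K] [Algebra k K] (s : Fin L → k) (φ : Fin L → K) :
    aeval φ (lf s) = lc s φ := by
  unfold lf lc
  rw [map_sum]
  refine Finset.sum_congr rfl fun i _ => ?_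
  rw [map_mul, aeval_X, aeval_C, Algebra.smul_def]

theorem jm_det_hom {ν r₀ D : ℕ} {P : Po (ν + 2) k} (hP : P.IsHomogeneous r₀)
    {T : Tup (ν + 2) k} (hT : ∀ i, (T i).IsHomogeneous D) :
    (jm P T).det.IsHomogeneous (ν * ((r₀ - 1 + (D - 1)) + D)) := by
  have hdd : ∀ (j : Fin ν) (i : Fin (ν + 2)),
      (dd P j.succ (T i)).IsHomogeneous (r₀ - 1 + (D - 1)) := by
    intro j i
    have e : dd P j.succ (T i) = pderiv 0 P * pderiv j.succ.succ (T i) -
        pderiv j.succ.succ P * pderiv 0 (T i) := rfl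
    rw [e]
    exact ((hP.pderiv).mul ((hT i).pderiv)).sub ((hP.pderiv).mul ((hT i).pderiv))
  apply det_homogeneous
  intro i j
  have e : jm P T i j = dd P j.succ (T i.succ.succ) * T 1 -
      T i.succ.succ * dd P j.succ (T 1) := rfl
  rw [e]
  have h1 := (hdd j i.succ.succ).mul (hT 1)
  have h2 := (hT i.succ.succ).mul (hdd j 1)
  rw [Nat.add_comm D] at h2
  exact h1.sub h2

end forms

section

variable {ν r₀ r d : ℕ} {k K κ : Type} [Field k] [CharZero k] [Field K] [Algebra k K]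
  [Field κ] [Algebra k κ] {P : Po (ν + 2) k} {V : Ideal (Po (ν + 2) k)}
  {F T : Tup (ν + 2) k} {ξ : Fin (ν + 2) → K} {η : Fin (ν + 2) → κ} {τ : K →ₐ[k] K}
  {τV : κ →ₐ[k] κ}

theorem gbd2 (hINM : T_INM) (hG : Gp P ξ) (hr1 : 1 ≤ r) (hr : r + 2 ≤ ν) {m B s : ℕ}
    (hB : ∀ s' : Fin ν → Fin (ν + 2) → k, dgm k (pn τ ξ m) ξ 3 s' ≤ B)
    {σ : K →ₐ[k] K} {l : ℕ} (hσ : σ^[l] = τ^[m]) (g : Fin (ν - r) → Po (ν + 2) k)
    (hg : ∀ i, (g i).IsHomogeneous s) (s₁ : Fin (ν + 2) → k)
    (a : Fin (r - 1) → Fin (ν + 2) → k) :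
    dg k (Set.range (wfn σ ξ g l 2) ∪
      insert (lc s₁ (pn τ ξ m)) (Set.range fun i => lc (a i) ξ)) ≤ (s + 1) ^ ν * B := by
  classical
  obtain ⟨φ, hφ⟩ : ∃ φ : Fin ν → Fin (ν + 2) → K, φ = fun i : Fin ν =>
    if (i : ℕ) < 3 then pn τ ξ m else ξ := ⟨_, rfl⟩
  obtain ⟨p, hp⟩ : ∃ p : Fin ν → Po (ν + 2) k, p = fun i : Fin ν =>
    if h1 : (i : ℕ) < 2 then g ⟨i, by omega⟩ else
      if h2 : (i : ℕ) = 2 then lf s₁ else
        if h3 : (i : ℕ) < ν - r + 1 then g ⟨(i : ℕ) - 1, by omega⟩ else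
          lf (a ⟨(i : ℕ) - (ν - r + 1), by have := i.2; omega⟩) := ⟨_, rfl⟩
  have hφ0 : ∀ i : Fin ν, (i : ℕ) < 3 → φ i = pn τ ξ m := fun i hi => by
    rw [hφ]
    exact if_pos hi
  have hφ1 : ∀ i : Fin ν, 3 ≤ (i : ℕ) → φ i = ξ := fun i hi => by
    rw [hφ]
    exact if_neg (by omega)
  have hp0 : ∀ (i : Fin ν) (j : Fin (ν - r)), (i : ℕ) < 2 → (j : ℕ) = i → p i = g j := by
    intro i j hi hj
    rw [hp]
    simp only
    rw [dif_pos hi]
    congr 1
    exact Fin.ext hj.symm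
  have hp1 : ∀ i : Fin ν, (i : ℕ) = 2 → p i = lf s₁ := by
    intro i hi
    rw [hp]
    simp only
    rw [dif_neg (by omega), dif_pos hi]
  have hp2 : ∀ (i : Fin ν) (j : Fin (ν - r)), 2 ≤ (j : ℕ) → (i : ℕ) = j + 1 → p i = g j := by
    intro i j hj hi
    rw [hp]
    simp only
    rw [dif_neg (by omega), dif_neg (by omega), dif_pos (by omega)]
    congr 1
    exact Fin.ext (by simp only; omega)
  have hp3 : ∀ (i : Fin ν) (j : Fin (r - 1)), (i : ℕ) = j + (ν - r + 1) → p i = lf (a j) := by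
    intro i j hj
    rw [hp]
    simp only
    rw [dif_neg (by omega), dif_neg (by omega), dif_neg (by omega)]
    congr 2
    exact Fin.ext (by simp only; omega)
  have hset : Set.range (wfn σ ξ g l 2) ∪
      insert (lc s₁ (pn τ ξ m)) (Set.range fun i => lc (a i) ξ) =
      Set.range fun i => aeval (φ i) (p i) / aeval (φ i) (1 : Po (ν + 2) k) := by
    ext x
    constructor
    · rintro (⟨i, rfl⟩ | (rfl | ⟨i, rfl⟩))
      · have hi2 := i.2
        rcases Nat.lt_or_ge (i : ℕ) 2 with hi | hi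
        · refine ⟨⟨i, by omega⟩, ?_⟩
          simp only [wfn]
          rw [if_pos hi, hφ0 _ (by simp only; omega), hp0 _ i hi rfl, map_one, div_one, hσ,
            iter_aeval]
        · refine ⟨⟨i + 1, by omega⟩, ?_⟩
          simp only [wfn]
          rw [if_neg (by omega), hφ1 _ (by simp only; omega), hp2 _ i hi rfl, map_one, div_one]
      · refine ⟨⟨2, by omega⟩, ?_⟩
        simp only
        rw [hφ0 _ (by simp only; omega), hp1 _ rfl, map_one, div_one, aeval_lf]
      · have hi2 := i.2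
        refine ⟨⟨i + (ν - r + 1), by omega⟩, ?_⟩
        simp only
        rw [hφ1 _ (by simp only; omega), hp3 _ i rfl, map_one, div_one, aeval_lf]
    · rintro ⟨i, rfl⟩
      have hi3 := i.2
      simp only
      rcases Nat.lt_or_ge (i : ℕ) 2 with hi | hi
      · left
        refine ⟨⟨i, by omega⟩, ?_⟩
        rw [hφ0 i (by omega), hp0 i ⟨i, by omega⟩ hi rfl, map_one, div_one, wfn,
          if_pos hi, hσ, iter_aeval]
      · rcases Nat.eq_or_lt_of_le hi with hi2 | hi2
        · right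
          left
          rw [hφ0 i (by omega), hp1 i hi2.symm, map_one, div_one, aeval_lf]
        · rcases Nat.lt_or_ge (i : ℕ) (ν - r + 1) with hi4 | hi4
          · left
            refine ⟨⟨(i : ℕ) - 1, by omega⟩, ?_⟩
            rw [hφ1 i (by omega), hp2 i ⟨(i : ℕ) - 1, by omega⟩ (by simp only; omega)
              (by simp only; omega), map_one, div_one, wfn, if_neg (by simp only; omega)]
          · right
            right
            refine ⟨⟨(i : ℕ) - (ν - r + 1), by omega⟩, ?_⟩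
            rw [hφ1 i (by omega), hp3 i ⟨(i : ℕ) - (ν - r + 1), by omega⟩ (by simp only; omega),
              map_one, div_one, aeval_lf]
  rw [hset]
  have h1 := hINM k K ν (ν + 2) B φ p (fun _ => 1) (fun _ => s + 1)
    (IntermediateField.fg_def.2 ⟨Set.range ξ, Set.finite_range _, hG.top⟩) hG.trd
    (fun s' => by
      have h2 := hB s'
      have h3 : (fun i : Fin ν => lc (s' i) (φ i)) = fun i : Fin ν =>
          lc (s' i) (if (i : ℕ) < 3 then pn τ ξ m else ξ) := by
        rw [hφ]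
      rw [h3]
      exact h2)
    (fun i => by
      rw [hp]
      simp only
      split_ifs
      · exact (hg _).totalDegree_le.trans (Nat.le_succ s)
      · exact (lf_hom _).totalDegree_le.trans (Nat.le_add_left 1 s)
      · exact (hg _).totalDegree_le.trans (Nat.le_succ s)
      · exact (lf_hom _).totalDegree_le.trans (Nat.le_add_left 1 s))
    (fun i => by
      rw [totalDegree_one]
      exact Nat.zero_le _)
    (fun i => by
      rw [map_one]
      exact one_ne_zero)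
  rw [Finset.prod_const, Finset.card_univ, Fintype.card_fin] at h1
  exact h1

/-- functions which are not independent -/
theorem dg_dep (htr : Algebra.trdeg k κ = r) (y : Fin r → κ)
    (hy : ¬ AlgebraicIndependent k y) : dg k (Set.range y) = 0 := by
  by_contra h
  apply hy
  have hfin : FiniteDimensional (IntermediateField.adjoin k (Set.range y)) κ := by
    by_contra h1
    exact h (Module.finrank_of_not_finite h1)
  have halg : Algebra.IsAlgebraic (IntermediateField.adjoin k (Set.range y)) κ := inferInstance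
  have h2 := Pool.Agent.H14.TD.alg_trans (Set.range y) y halg (fun i =>
    isAlgebraic_algebraMap
      (⟨_, Algebra.subset_adjoin ⟨i, rfl⟩⟩ : Algebra.adjoin k (Set.range y)))
  exact (Algebra.IsAlgebraic.isTranscendenceBasis_of_le_trdeg_of_finite k y (by
    rw [htr, Cardinal.mk_fin])).1

end

theorem pf_VDF (hINM : T_INM) (hLRG : T_LRG) (hDRV : T_DRV) (hJCB : T_JCB)
    (hTRV : Pool.Agent.H2.ED.T_TRV) (hKSP : T_KSP) (hCHN : Pool.Agent.H2.ED.T_CHN)
    (hRES : T_RES) (hXCH : T_XCH) (hFDM : T_FDM) : T_VDF := by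
  classical
  intro ν r₀ r d k P F V K κ _ _ _ _ ξ η τ τV _ hP hF _ hs hfd0 _ hV hH _ hPV hr1 hr hinv hfv
    hp0 hj0
  obtain ⟨σ, hσ⟩ := iter_algHomX τ k
  have hfd : Fd P (it F k) ξ σ := fd_it hfd0 hP hF hs k σ hσ
  obtain ⟨R, ρ, hR⟩ := hLRG ν r Qb K κ P V ξ η hPV hfd0.gp hfv.gv
  have hT : ∀ i, (it F k i).IsHomogeneous (d ^ k) := it_hom hF k
  have h0 : aeval η (pderiv 0 P) ≠ 0 := fun h => hp0 ((hfv.gv.iff _ _ hP.hom.pderiv).1 h)
  have hj : aeval η (jm P (it F k)).det ≠ 0 := fun h =>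
    hj0 ((hfv.gv.iff _ _ (jm_det_hom hP.hom hT)).1 h)
  obtain ⟨-, hreg, s0, hs0⟩ := vlm hDRV hJCB hTRV hKSP hCHN hRES hXCH hFDM hP hV hH hPV hT hinv
    hfd hfv h0 hj hR
  refine ⟨(s0 + 1) ^ ν, fun n B hB s₁ a => ?_⟩
  obtain ⟨g, hg, hgy⟩ := hs0 n 2 (by omega)
  have hσn : σ^[n] = τ^[k * n] := by
    rw [Function.iterate_mul, hσ]
  -- the functions
  have hmem : ∀ s : Fin (ν + 2) → Qb, lc s ξ ∈ R := by
    intro s
    rw [← aeval_lf]
    exact hR.mem _
  have hval : ∀ s : Fin (ν + 2) → Qb, ρ ⟨lc s ξ, hmem s⟩ = lc s η := by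
    intro s
    have h1 := hR.val (lf s) (hR.mem _)
    rw [aeval_lf s η] at h1
    rw [← h1]
    apply congrArg ρ
    exact Subtype.ext (aeval_lf s ξ).symm
  obtain ⟨z, hz1, hz2⟩ := hreg n ⟨lc s₁ ξ, hmem s₁⟩
  rw [hval] at hz2
  have hz1' : (z : K) = lc s₁ (pn τ ξ (k * n)) := by
    rw [hz1, hσn]
    show τ^[k * n] (lc s₁ ξ) = _
    rw [← aeval_lf, iter_aeval, aeval_lf]
  have hz2' : ρ z = lc s₁ (pn τV η n) := by
    rw [hz2, ← aeval_lf, iter_aeval, aeval_lf]
  obtain ⟨r', rfl⟩ : ∃ r', r = r' + 1 := ⟨r - 1, by omega⟩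
  let y : Fin (r' + 1) → R := Fin.cons z fun i => ⟨lc (a i) ξ, hmem (a i)⟩
  have hy1 : (Set.range fun i => ρ (y i)) =
      insert (lc s₁ (pn τV η n)) (Set.range fun i => lc (a i) η) := by
    ext x
    rw [Set.mem_insert_iff]
    constructor
    · rintro ⟨i, rfl⟩
      refine Fin.cases ?_ (fun i => ?_) i
      · left
        exact hz2'
      · right
        exact ⟨i, (hval (a i)).symm⟩
    · rintro (rfl | ⟨i, rfl⟩)
      · exact ⟨0, hz2'⟩
      · exact ⟨Fin.succ i, hval (a i)⟩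
  have hy2 : (Set.range fun i => (y i : K)) =
      insert (lc s₁ (pn τ ξ (k * n))) (Set.range fun i => lc (a i) ξ) := by
    ext x
    rw [Set.mem_insert_iff]
    constructor
    · rintro ⟨i, rfl⟩
      refine Fin.cases ?_ (fun i => ?_) i
      · left
        exact hz1'
      · right
        exact ⟨i, rfl⟩
    · rintro (rfl | ⟨i, rfl⟩)
      · exact ⟨0, hz1'⟩
      · exact ⟨Fin.succ i, rfl⟩
  rw [← hy1]
  by_cases hind : AlgebraicIndependent Qb (fun i => ρ (y i))
  · refine (hgy y hind).trans ?_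
    rw [hy2]
    exact gbd2 hINM hfd0.gp hr1 hr hB hσn g hg s₁ a
  · rw [dg_dep hfv.gv.trd _ hind]
    exact Nat.zero_le _

end Pool.Agent.H73.EDA
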